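import Mathlib

set_option autoImplicit false

namespace Pool.Agent.Work.MP_1d4c69_co

variable {V : Type*} [Fintype V]

/-- The eccentricity `e(v) = max_u d(u, v)`. -/
noncomputable def ecc (G : SimpleGraph V) (v : V) : ℕ := Finset.univ.sup fun u => G.dist u v

/-- A dominating broadcast: `f v ≤ e(v)` for all `v`, and every vertex `u` has some vertex `v` with
`f v ≥ 1` and `d(u, v) ≤ f v`. -/
def IsDominatingBroadcast (G : SimpleGraph V) (f : V → ℕ) : Prop :=
  (∀ v, f v ≤ ecc G v) ∧ ∀ u, ∃ v, 1 ≤ f v ∧ G.dist u v ≤ f v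

/-- The broadcast domination number: the minimum cost of a dominating broadcast. -/
noncomputable def broadcastNumber (G : SimpleGraph V) : ℕ :=
  sInf {c : ℕ | ∃ f : V → ℕ, IsDominatingBroadcast G f ∧ ∑ v, f v = c}

/-- The ball `N_r[v] = {u : d(u, v) ≤ r}`. -/
def ball (G : SimpleGraph V) (v : V) (r : ℕ) : Set V := {u | G.dist u v ≤ r}

/-- A multipacking: `|N_r[v] ∩ M| ≤ r` for every vertex `v` and every integer `r ≥ 1`. -/
def IsMultipacking (G : SimpleGraph V) (M : Set V) : Prop :=
  ∀ v : V, ∀ r : ℕ, 1 ≤ r → (ball G v r ∩ M).ncard ≤ r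

/-- The multipacking number: the maximum size of a multipacking. -/
noncomputable def multipackingNumber (G : SimpleGraph V) : ℕ :=
  sSup {k : ℕ | ∃ M : Set V, IsMultipacking G M ∧ M.ncard = k}

end Pool.Agent.Work.MP_1d4c69_co
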