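import Pool.Agent.Work.MP_1d4c69_co.Defs

set_option autoImplicit false

namespace Pool.Agent.Work.MP_1d4c69_co

/-- Circular distance on `Z/8`. -/
def c8 (i j : ℕ) : ℕ := min ((i + 8 - j) % 8) ((j + 8 - i) % 8)

/-- The distance of the torus `C₃ □ C₈`; the vertex `(i, j)` is numbered `8 i + j`. -/
def D (u v : Fin 24) : ℕ :=
  (if u.val / 8 = v.val / 8 then 0 else 1) + c8 (u.val % 8) (v.val % 8)

/-- The torus `C₃ □ C₈`. -/
def T : SimpleGraph (Fin 24) where
  Adj u v := D u v = 1
  symm := by
    have h : ∀ u v : Fin 24, D u v = 1 → D v u = 1 := by decide +kernel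
    exact ⟨fun u v => h u v⟩
  loopless := ⟨by decide +kernel⟩

theorem D_symm : ∀ u v : Fin 24, D u v = D v u := by decide +kernel
theorem D_self : ∀ u : Fin 24, D u u = 0 := by decide +kernel
theorem D_eq : ∀ u v : Fin 24, D u v = 0 → u = v := by decide +kernel
theorem D_lip : ∀ u w v : Fin 24, D u w = 1 → D u v ≤ D w v + 1 := by decide +kernel
theorem D_step : ∀ u v : Fin 24, u ≠ v → ∃ w : Fin 24, D u w = 1 ∧ D u v = D w v + 1 := by
  decide +kernel

theorem exists_walk (v : Fin 24) :
    ∀ (n : ℕ) (u : Fin 24), D u v = n → ∃ p : T.Walk u v, p.length = n := by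
  intro n
  induction n with
  | zero =>
    intro u h
    obtain rfl := D_eq u v h
    exact ⟨SimpleGraph.Walk.nil, rfl⟩
  | succ n ih =>
    intro u h
    have hne : u ≠ v := by
      rintro rfl
      rw [D_self] at h
      omega
    obtain ⟨w, hw1, hw2⟩ := D_step u v hne
    obtain ⟨p, hp⟩ := ih w (by omega)
    have hadj : T.Adj u w := hw1
    exact ⟨SimpleGraph.Walk.cons hadj p, by simp [hp]⟩

theorem walk_ge (u v : Fin 24) (p : T.Walk u v) : D u v ≤ p.length := by
  induction p with
  | nil => simp [D_self]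
  | @cons a b c h p ih =>
    have h1 : D a c ≤ D b c + 1 := D_lip a b c h
    rw [SimpleGraph.Walk.length_cons]
    omega

theorem T_conn : T.Connected := by
  have : Nonempty (Fin 24) := ⟨0⟩
  refine ⟨fun u v => ?_⟩
  obtain ⟨p, _⟩ := exists_walk v (D u v) u rfl
  exact ⟨p⟩

theorem dist_eq (u v : Fin 24) : T.dist u v = D u v := by
  apply le_antisymm
  · obtain ⟨p, hp⟩ := exists_walk v (D u v) u rfl
    rw [← hp]
    exact SimpleGraph.dist_le p
  · obtain ⟨p, hp⟩ := (T_conn u v).exists_walk_length_eq_dist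
    rw [← hp]
    exact walk_ge u v p

/-- Ball sizes: `3 |B_r| ≤ 17 r` for `1 ≤ r ≤ 4`. -/
theorem ball_le : ∀ v : Fin 24, ∀ r : Fin 5, 1 ≤ r.val →
    3 * (Finset.univ.filter (fun u => D u v ≤ r.val)).card ≤ 17 * r.val := by
  decide +kernel

/-- `hit r l` says that some ball of radius `r` contains every vertex in the list `l`. -/
def hit (r : ℕ) (l : List (Fin 24)) : Bool :=
  (List.finRange 24).any fun v => l.all fun a => decide (D v a ≤ r)

theorem hit_spec {r : ℕ} {l : List (Fin 24)} (h : hit r l = true) :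
    ∃ v : Fin 24, ∀ a ∈ l, D v a ≤ r := by
  unfold hit at h
  rw [List.any_eq_true] at h
  obtain ⟨v, _, hv⟩ := h
  refine ⟨v, fun a ha => ?_⟩
  rw [List.all_eq_true] at hv
  exact of_decide_eq_true (hv a ha)

/-- Every quadruple of distinct vertices violates one of the multipacking constraints. -/
theorem four : ∀ a b : Fin 24, a < b → hit 1 [a, b] = true ∨
    ∀ c : Fin 24, b < c → (hit 1 [a, c] || hit 1 [b, c] || hit 2 [a, b, c]) = true ∨
    ∀ d : Fin 24, c < d → (hit 1 [a, d] || hit 1 [b, d] || hit 1 [c, d] ||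
      hit 2 [a, b, d] || hit 2 [a, c, d] || hit 2 [b, c, d] || hit 3 [a, b, c, d]) = true := by
  decide +kernel

/-- If a multipacking `M` contains all vertices of a duplicate-free list `l`, then no ball of
radius `r ≥ 1` with `r < l.length` contains `l`. -/
theorem not_hit {M : Finset (Fin 24)}
    (hM : ∀ v : Fin 24, ∀ r : ℕ, 1 ≤ r → (M.filter (fun u => T.dist v u ≤ r)).card ≤ r)
    {r : ℕ} (hr : 1 ≤ r) {l : List (Fin 24)} (hl : l.Nodup) (hlM : ∀ a ∈ l, a ∈ M)
    (hlen : r < l.length) : hit r l = false := by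
  by_contra hne
  have h : hit r l = true := by simpa using hne
  obtain ⟨v, hv⟩ := hit_spec h
  have h1 := hM v r hr
  have h2 : l.toFinset ⊆ M.filter (fun u => T.dist v u ≤ r) := by
    intro a ha
    have ha' : a ∈ l := List.mem_toFinset.mp ha
    rw [Finset.mem_filter]
    exact ⟨hlM a ha', by rw [dist_eq]; exact hv a ha'⟩
  have h3 := Finset.card_le_card h2
  rw [List.toFinset_card_of_nodup hl] at h3
  omega

theorem no_four (M : Finset (Fin 24))
    (hM : ∀ v : Fin 24, ∀ r : ℕ, 1 ≤ r → (M.filter (fun u => T.dist v u ≤ r)).card ≤ r) :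
    M.card ≤ 3 := by
  by_contra hcon
  have h4 : 4 ≤ M.card := by omega
  obtain ⟨S, hSM, hS⟩ := Finset.exists_subset_card_eq h4
  have ha := hSM (Finset.orderEmbOfFin_mem S hS 0)
  have hb := hSM (Finset.orderEmbOfFin_mem S hS 1)
  have hc := hSM (Finset.orderEmbOfFin_mem S hS 2)
  have hd := hSM (Finset.orderEmbOfFin_mem S hS 3)
  have hab : S.orderEmbOfFin hS 0 < S.orderEmbOfFin hS 1 :=
    (S.orderEmbOfFin hS).strictMono (by decide)
  have hbc : S.orderEmbOfFin hS 1 < S.orderEmbOfFin hS 2 :=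
    (S.orderEmbOfFin hS).strictMono (by decide)
  have hcd : S.orderEmbOfFin hS 2 < S.orderEmbOfFin hS 3 :=
    (S.orderEmbOfFin hS).strictMono (by decide)
  generalize S.orderEmbOfFin hS 0 = a at *
  generalize S.orderEmbOfFin hS 1 = b at *
  generalize S.orderEmbOfFin hS 2 = c at *
  generalize S.orderEmbOfFin hS 3 = d at *
  have hac : a < c := hab.trans hbc
  have had : a < d := hac.trans hcd
  have hbd : b < d := hbc.trans hcd
  have e1 : hit 1 [a, b] = false := not_hit hM le_rfl (by simp [hab.ne])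
    (by simp [ha, hb]) (by simp)
  have e2 : hit 1 [a, c] = false := not_hit hM le_rfl (by simp [hac.ne])
    (by simp [ha, hc]) (by simp)
  have e3 : hit 1 [b, c] = false := not_hit hM le_rfl (by simp [hbc.ne])
    (by simp [hb, hc]) (by simp)
  have e4 : hit 2 [a, b, c] = false := not_hit hM (by norm_num)
    (by simp [hab.ne, hac.ne, hbc.ne]) (by simp [ha, hb, hc]) (by simp)
  have e5 : hit 1 [a, d] = false := not_hit hM le_rfl (by simp [had.ne])
    (by simp [ha, hd]) (by simp)
  have e6 : hit 1 [b, d] = false := not_hit hM le_rfl (by simp [hbd.ne])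
    (by simp [hb, hd]) (by simp)
  have e7 : hit 1 [c, d] = false := not_hit hM le_rfl (by simp [hcd.ne])
    (by simp [hc, hd]) (by simp)
  have e8 : hit 2 [a, b, d] = false := not_hit hM (by norm_num)
    (by simp [hab.ne, had.ne, hbd.ne]) (by simp [ha, hb, hd]) (by simp)
  have e9 : hit 2 [a, c, d] = false := not_hit hM (by norm_num)
    (by simp [hac.ne, had.ne, hcd.ne]) (by simp [ha, hc, hd]) (by simp)
  have e10 : hit 2 [b, c, d] = false := not_hit hM (by norm_num)
    (by simp [hbc.ne, hbd.ne, hcd.ne]) (by simp [hb, hc, hd]) (by simp)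
  have e11 : hit 3 [a, b, c, d] = false := not_hit hM (by norm_num)
    (by simp [hab.ne, hac.ne, had.ne, hbc.ne, hbd.ne, hcd.ne]) (by simp [ha, hb, hc, hd])
    (by simp)
  rcases four a b hab with h | h
  · rw [e1] at h
    exact absurd h (by decide)
  · rcases h c hbc with h | h
    · rw [e2, e3, e4] at h
      exact absurd h (by decide)
    · have h := h d hcd
      rw [e5, e6, e7, e8, e9, e10, e11] at h
      exact absurd h (by decide)

theorem three_ok : ∀ v : Fin 24,
    ((({0, 3, 13} : Finset (Fin 24)).filter (fun u => D v u ≤ 1)).card ≤ 1) ∧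
    ((({0, 3, 13} : Finset (Fin 24)).filter (fun u => D v u ≤ 2)).card ≤ 2) := by
  decide +kernel

theorem broadcast_ge (f : Fin 24 → ℕ)
    (hf : ∀ u : Fin 24, ∃ v : Fin 24, 1 ≤ f v ∧ T.dist u v ≤ f v) : 5 ≤ ∑ v, f v := by
  by_contra hcon
  have hsum : ∑ v, f v ≤ 4 := by omega
  have hle : ∀ v, f v ≤ 4 := fun v =>
    (Finset.single_le_sum (f := f) (fun i _ => Nat.zero_le _) (Finset.mem_univ v)).trans hsum
  let B : Fin 24 → Finset (Fin 24) := fun v =>
    if 1 ≤ f v then Finset.univ.filter (fun u => D u v ≤ f v) else ∅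
  have hB : ∀ v, 3 * (B v).card ≤ 17 * f v := by
    intro v
    by_cases hv : 1 ≤ f v
    · have := ball_le v ⟨f v, by have := hle v; omega⟩ hv
      simpa [B, hv] using this
    · simp [B, hv]
  have hcov : (Finset.univ : Finset (Fin 24)) ⊆ Finset.univ.biUnion B := by
    intro u _
    obtain ⟨v, hv1, hv2⟩ := hf u
    rw [Finset.mem_biUnion]
    refine ⟨v, Finset.mem_univ v, ?_⟩
    rw [dist_eq] at hv2
    simp [B, hv1, hv2]
  have h1 := Finset.card_le_card hcov
  have h2 : (Finset.univ.biUnion B).card ≤ ∑ v, (B v).card := Finset.card_biUnion_le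
  have h3 : 3 * ∑ v, (B v).card ≤ 17 * ∑ v, f v := by
    rw [Finset.mul_sum, Finset.mul_sum]
    exact Finset.sum_le_sum fun v _ => hB v
  rw [Finset.card_univ, Fintype.card_fin] at h1
  omega


theorem D_tri : ∀ u w v : Fin 24, D u w ≤ 1 → D u v ≤ D w v + 1 := by decide +kernel

theorem D_step' : ∀ u v : Fin 24, u ≠ v → ∃ w : Fin 24, D u w = 1 ∧ D u v = D w v + 1 := D_step

section Blow

variable {n : ℕ} (hn : 24 ≤ n)

/-- the projection of the blow-up onto the torus -/
def pr (n : ℕ) (i : Fin n) : Fin 24 := if h : i.val < 24 then ⟨i.val, h⟩ else 0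

/-- the section -/
def emb (hn : 24 ≤ n) (i : Fin 24) : Fin n := ⟨i.val, lt_of_lt_of_le i.isLt hn⟩

theorem pr_emb (i : Fin 24) : pr n (emb hn i) = i := by
  simp [pr, emb]

/-- the distance of the blow-up -/
def DB (n : ℕ) (u v : Fin n) : ℕ := if u = v then 0 else max 1 (D (pr n u) (pr n v))

/-- The torus `C₃ □ C₈` with the vertex `0` replaced by a clique of `n - 23` true twins. -/
def B (n : ℕ) : SimpleGraph (Fin n) where
  Adj u v := u ≠ v ∧ D (pr n u) (pr n v) ≤ 1
  symm := ⟨fun u v h => ⟨h.1.symm, by rw [D_symm]; exact h.2⟩⟩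
  loopless := ⟨fun u h => h.1 rfl⟩

theorem DB_self (u : Fin n) : DB n u u = 0 := by simp [DB]

theorem DB_symm (u v : Fin n) : DB n u v = DB n v u := by
  unfold DB
  by_cases h : u = v
  · simp [h]
  · rw [if_neg h, if_neg (Ne.symm h), D_symm]

theorem DB_eq (u v : Fin n) (h : DB n u v = 0) : u = v := by
  by_contra hne
  rw [DB, if_neg hne] at h
  omega

theorem DB_ne {u v : Fin n} (h : u ≠ v) : DB n u v = max 1 (D (pr n u) (pr n v)) := by
  rw [DB, if_neg h]

theorem le_DB (u v : Fin n) : D (pr n u) (pr n v) ≤ DB n u v := by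
  by_cases h : u = v
  · subst h; rw [D_self]; exact Nat.zero_le _
  · rw [DB_ne h]; exact le_max_right _ _

theorem DB_le (u v : Fin n) : DB n u v ≤ max 1 (D (pr n u) (pr n v)) := by
  by_cases h : u = v
  · subst h; rw [DB_self]; exact Nat.zero_le _
  · rw [DB_ne h]

theorem DB_lip (u w v : Fin n) (h : (B n).Adj u w) : DB n u v ≤ DB n w v + 1 := by
  have h1 := D_tri (pr n u) (pr n w) (pr n v) h.2
  have h2 := le_DB w v
  have h3 := DB_le u v
  omega

include hn in
theorem DB_step (u v : Fin n) (huv : u ≠ v) : ∃ w : Fin n, (B n).Adj u w ∧ DB n u v = DB n w v + 1 := by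
  by_cases h : D (pr n u) (pr n v) ≤ 1
  · exact ⟨v, ⟨huv, h⟩, by rw [DB_self, DB_ne huv]; omega⟩
  · have hne : pr n u ≠ pr n v := by
      intro he
      rw [he, D_self] at h
      omega
    obtain ⟨w, hw1, hw2⟩ := D_step _ _ hne
    refine ⟨emb hn w, ⟨?_, ?_⟩, ?_⟩
    · rintro rfl
      rw [pr_emb, D_self] at hw1
      omega
    · rw [pr_emb]; omega
    · have hwv : emb hn w ≠ v := by
        rintro rfl
        rw [pr_emb, D_self] at hw2
        rw [pr_emb] at h
        omega
      rw [DB_ne huv, DB_ne hwv, pr_emb]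
      omega

include hn in
theorem B_exists_walk (v : Fin n) :
    ∀ (k : ℕ) (u : Fin n), DB n u v = k → ∃ p : (B n).Walk u v, p.length = k := by
  intro k
  induction k with
  | zero =>
    intro u h
    obtain rfl := DB_eq u v h
    exact ⟨SimpleGraph.Walk.nil, rfl⟩
  | succ k ih =>
    intro u h
    have hne : u ≠ v := by
      rintro rfl
      rw [DB_self] at h
      omega
    obtain ⟨w, hw1, hw2⟩ := DB_step hn u v hne
    obtain ⟨p, hp⟩ := ih w (by omega)
    exact ⟨SimpleGraph.Walk.cons hw1 p, by simp [hp]⟩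

theorem B_walk_ge (u v : Fin n) (p : (B n).Walk u v) : DB n u v ≤ p.length := by
  induction p with
  | nil => simp [DB_self]
  | @cons a b c h p ih =>
    have h1 : DB n a c ≤ DB n b c + 1 := DB_lip a b c h
    rw [SimpleGraph.Walk.length_cons]
    omega

include hn in
theorem B_conn : (B n).Connected := by
  have : Nonempty (Fin n) := ⟨⟨0, by omega⟩⟩
  refine ⟨fun u v => ?_⟩
  obtain ⟨p, _⟩ := B_exists_walk hn v (DB n u v) u rfl
  exact ⟨p⟩

include hn in
theorem B_dist (u v : Fin n) : (B n).dist u v = DB n u v := by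
  apply le_antisymm
  · obtain ⟨p, hp⟩ := B_exists_walk hn v (DB n u v) u rfl
    rw [← hp]
    exact SimpleGraph.dist_le p
  · obtain ⟨p, hp⟩ := (B_conn hn u v).exists_walk_length_eq_dist
    rw [← hp]
    exact B_walk_ge u v p

/-! ### multipackings -/

open Classical in
include hn in
theorem mp_le {M : Set (Fin n)} (hM : IsMultipacking (B n) M) : M.ncard ≤ 3 := by
  -- the projection is injective on `M`
  have hinj : Set.InjOn (pr n) M := by
    intro u hu v hv huv
    by_contra hne
    have h1 := hM u 1 le_rfl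
    have h2 : ({u, v} : Set (Fin n)) ⊆ ball (B n) u 1 ∩ M := by
      rintro w (rfl | rfl)
      · exact ⟨by simp [ball], hu⟩
      · refine ⟨?_, hv⟩
        show (B n).dist w u ≤ 1
        rw [B_dist hn, DB_ne (Ne.symm hne), huv, D_self]
        decide
    have h3 := Set.ncard_le_ncard h2 (Set.toFinite _)
    rw [Set.ncard_pair hne] at h3
    omega
  have h1 := no_four ((pr n '' M).toFinite.toFinset) (by
    intro v r hr
    have h2 := hM (emb hn v) r hr
    refine le_trans ?_ h2
    have h3 : (((pr n '' M).toFinite.toFinset.filter (fun u => T.dist v u ≤ r)) : Set (Fin 24)) ⊆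
        pr n '' (ball (B n) (emb hn v) r ∩ M) := by
      intro w hw
      rw [Finset.coe_filter] at hw
      obtain ⟨hw1, hw2⟩ := hw
      rw [Set.Finite.mem_toFinset] at hw1
      obtain ⟨x, hx, rfl⟩ := hw1
      refine ⟨x, ⟨?_, hx⟩, rfl⟩
      show (B n).dist x (emb hn v) ≤ r
      rw [B_dist hn]
      refine (DB_le _ _).trans ?_
      rw [pr_emb, D_symm, ← dist_eq]
      exact max_le hr hw2
    rw [← Set.ncard_coe_finset]
    exact (Set.ncard_le_ncard h3 (Set.toFinite _)).trans (Set.ncard_image_le (Set.toFinite _)))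
  rwa [← Set.ncard_eq_toFinset_card _ _, hinj.ncard_image] at h1

open Classical in
include hn in
theorem mp_three : IsMultipacking (B n) ((emb hn) '' {0, 3, 13}) ∧
    ((emb hn) '' {0, 3, 13}).ncard = 3 := by
  have hinj : Function.Injective (emb hn) := by
    intro a b h
    have := congrArg (pr n) h
    rwa [pr_emb, pr_emb] at this
  refine ⟨?_, ?_⟩
  · intro v r hr
    have h1 : ball (B n) v r ∩ (emb hn '' {0, 3, 13}) ⊆
        emb hn '' ((({0, 3, 13} : Finset (Fin 24)).filter (fun u => D (pr n v) u ≤ r) : Finset (Fin 24)) :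
          Set (Fin 24)) := by
      rintro _ ⟨hx1, ⟨x, hx, rfl⟩⟩
      refine ⟨x, ?_, rfl⟩
      rw [Finset.coe_filter]
      refine ⟨by simpa using hx, ?_⟩
      have h2 : (B n).dist (emb hn x) v ≤ r := hx1
      rw [B_dist hn] at h2
      have h3 := le_DB (emb hn x) v
      rw [pr_emb, D_symm] at h3
      exact h3.trans h2
    refine (Set.ncard_le_ncard h1 (Set.toFinite _)).trans ?_
    refine (Set.ncard_image_le (Set.toFinite _)).trans ?_
    rw [Set.ncard_coe_finset]
    rcases Nat.lt_or_ge r 3 with h | h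
    · interval_cases r
      · exact (three_ok _).1
      · exact (three_ok _).2
    · exact (Finset.card_filter_le _ _).trans (le_trans (by decide) h)
  · rw [Set.ncard_image_of_injective _ hinj]
    have : ({0, 3, 13} : Set (Fin 24)) = (({0, 3, 13} : Finset (Fin 24)) : Set (Fin 24)) := by simp
    rw [this, Set.ncard_coe_finset]
    decide

include hn in
theorem multipackingNumber_B : multipackingNumber (B n) = 3 := by
  refine le_antisymm (csSup_le ⟨3, _, mp_three hn⟩ ?_) (le_csSup ⟨3, ?_⟩ ⟨_, mp_three hn⟩)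
  · rintro k ⟨M, hM, rfl⟩
    exact mp_le hn hM
  · rintro k ⟨M, hM, rfl⟩
    exact mp_le hn hM

/-! ### broadcasts -/

include hn in
theorem bc_ge {f : Fin n → ℕ} (hf : IsDominatingBroadcast (B n) f) : 5 ≤ ∑ v, f v := by
  have h1 := broadcast_ge (fun w => ∑ u ∈ Finset.univ.filter (fun u => pr n u = w), f u) (by
    intro u
    obtain ⟨v, hv1, hv2⟩ := hf.2 (emb hn u)
    have h2 : f v ≤ ∑ u ∈ Finset.univ.filter (fun u => pr n u = pr n v), f u :=
      Finset.single_le_sum (f := f) (fun i _ => Nat.zero_le _) (by simp)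
    refine ⟨pr n v, hv1.trans h2, ?_⟩
    rw [dist_eq]
    rw [B_dist hn] at hv2
    have h3 := le_DB (emb hn u) v
    rw [pr_emb] at h3
    exact (h3.trans hv2).trans h2)
  rwa [Finset.sum_fiberwise] at h1

theorem D_le_five : ∀ u v : Fin 24, D u v ≤ 5 := by decide +kernel

include hn in
theorem bc_five : IsDominatingBroadcast (B n) (fun v => if v = emb hn 0 then 5 else 0) := by
  refine ⟨?_, ?_⟩
  · intro v
    by_cases hv : v = emb hn 0
    · simp only [hv, if_true]
      have h1 : (B n).dist (emb hn 12) (emb hn 0) = 5 := by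
        rw [B_dist hn, DB_ne (by intro h; have := congrArg (pr n) h; rw [pr_emb, pr_emb] at this; exact absurd this (by decide)),
          pr_emb, pr_emb]
        decide
      calc 5 = (B n).dist (emb hn 12) (emb hn 0) := h1.symm
        _ ≤ ecc (B n) (emb hn 0) :=
          Finset.le_sup (f := fun u => (B n).dist u (emb hn 0)) (Finset.mem_univ _)
    · simp [hv]
  · intro u
    refine ⟨emb hn 0, by simp, ?_⟩
    rw [B_dist hn]
    simp only [if_true]
    refine (DB_le _ _).trans ?_
    have := D_le_five (pr n u) (pr n (emb hn 0))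
    omega

include hn in
theorem broadcastNumber_B : broadcastNumber (B n) = 5 := by
  have h1 : (5 : ℕ) ∈ {c : ℕ | ∃ f : Fin n → ℕ, IsDominatingBroadcast (B n) f ∧ ∑ v, f v = c} :=
    ⟨_, bc_five hn, by simp⟩
  refine le_antisymm (Nat.sInf_le h1) ?_
  obtain ⟨f, hf, hs⟩ := Nat.sInf_mem ⟨5, h1⟩
  have h2 := bc_ge hn hf
  unfold broadcastNumber
  omega

end Blow

/-- For every `n ≥ 24` there is a connected graph on `n` vertices with multipacking number `3` and
broadcast domination number `5`. -/
theorem exists_graph (n : ℕ) (hn : 24 ≤ n) : ∃ G : SimpleGraph (Fin n), G.Connected ∧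
    multipackingNumber G = 3 ∧ broadcastNumber G = 5 :=
  ⟨B n, B_conn hn, multipackingNumber_B hn, broadcastNumber_B hn⟩

end Pool.Agent.Work.MP_1d4c69_co
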